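import Pool.Agent.LibJes95.Fin

/-!
# Explicit classes of primitive triples for which Jeśmanowicz's conjecture holds
-/

namespace Pool.Agent.Results.MP_252f3f_nt.ExplicitClasses

open Jes95

/-- Let `m > n ≥ 1` be coprime of opposite parity, and suppose that `m + n` has a divisor
`d ≡ 3 (mod 4)` and that `m - n` has a divisor `≡ ±3 (mod 8)` or `m + n` has a divisor
`≢ 1, d (mod 8)`.  If `c² ≤ 2^(3k) b²` for some `2^k ∣ b = 2mn`, `c = m² + n²`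
(for instance if `m ≤ 15 n`), or if `n ≥ 2`, `2n ≤ 2^l` and `m ≥ (2n)^(8l+4)`, then
`(m² - n²) ^ x + (2mn) ^ y = (m² + n²) ^ z` has no solution in positive integers other than
`x = y = z = 2`. -/
theorem result (m n : ℕ) (hn : 0 < n) (hnm : n < m) (hco : m.Coprime n) (hodd : (m + n) % 2 = 1)
    (hpar : ∃ d, d ∣ m + n ∧ d % 4 = 3 ∧
      ((∃ e, e ∣ m - n ∧ (e % 8 = 3 ∨ e % 8 = 5)) ∨
        (∃ e, e ∣ m + n ∧ e % 8 ≠ 1 ∧ e % 8 ≠ d % 8)))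
    (hsize : m ≤ 15 * n ∨
      (∃ k, 2 ^ k ∣ 2 * m * n ∧ (m ^ 2 + n ^ 2) ^ 2 ≤ 2 ^ (3 * k) * (2 * m * n) ^ 2) ∨
      (2 ≤ n ∧ ∃ l, 2 * n ≤ 2 ^ l ∧ (2 * n) ^ (8 * l + 4) ≤ m))
    (x y z : ℕ) (hx : 0 < x) (hy : 0 < y) (hz : 0 < z)
    (e : (m ^ 2 - n ^ 2) ^ x + (2 * m * n) ^ y = (m ^ 2 + n ^ 2) ^ z) :
    x = 2 ∧ y = 2 ∧ z = 2 := by
  have h : Adm m n := ⟨hn, hnm, hco, hodd⟩
  have he : EvenJes m n := by
    rcases hsize with h15 | hk | hl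
    · exact evenJes_of h (Or.inl ⟨2, four_dvd_two_mul h, ratio15 h h15⟩)
    · exact evenJes_of h (Or.inl hk)
    · exact evenJes_of h (Or.inr (Or.inr (Or.inl hl)))
  exact jesMN_of h hpar he x y z hx hy hz e

end Pool.Agent.Results.MP_252f3f_nt.ExplicitClasses
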