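import Pool.Agent.LibJP91.Z4
/-!
# Jeśmanowicz's conjecture for primitive Pythagorean triples: fewer than `C ^ ε` exceptions
-/
namespace Pool.Agent.Results.MP_252f3f_nt.PrimitiveEpsilon
/-- For every `ε > 0` there is `K` such that, for every `C ≥ 1`, at most `K C ^ ε` of the primitive
Pythagorean triples `(a, b, c)` with `c ≤ C` are such that `a ^ x + b ^ y = c ^ z` has a solution in
positive integers other than `x = y = z = 2`. -/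
theorem result (ε : ℝ) (hε : 0 < ε) : ∃ K : ℝ, ∀ C : ℕ, 1 ≤ C →
    (({t : ℕ × ℕ × ℕ | 0 < t.1 ∧ 0 < t.2.1 ∧ t.1.Coprime t.2.1 ∧
        t.1 ^ 2 + t.2.1 ^ 2 = t.2.2 ^ 2 ∧ t.2.2 ≤ C ∧
      ∃ x y z : ℕ, 0 < x ∧ 0 < y ∧ 0 < z ∧ t.1 ^ x + t.2.1 ^ y = t.2.2 ^ z ∧
        ¬ (x = 2 ∧ y = 2 ∧ z = 2)}).ncard : ℝ) ≤ K * (C : ℝ) ^ ε :=
  JP91.main ε hε

end Pool.Agent.Results.MP_252f3f_nt.PrimitiveEpsilon
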